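import Mathlib
import Pool.Agent.N546.PN.Stm3

set_option autoImplicit false

/-!
# Project PW (helper546), leaf GLUW (helper982): gluing over a rational base point
-/

namespace Pool.Agent.N982.PW

open Pool.Agent.N546.PN

open Pool.Agent.N718.DC (Near OnC Sol S_CWA)

theorem val_cast {r n : ℕ} {e : Fin r × Fin 3 → ℕ}
    (c : (k : Fin r × Fin 3) → Mon n (e k + 1) → ℤ) (K : Type) [Field K] [CharZero K]
    (q : Fin (n + 1) → ℤ) (k : Fin r × Fin 3) :
    val (ic c K k) (fun i => ((q i : ℤ) : K)) =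
      ((val (ic c ℚ k) (fun i => (q i : ℚ)) : ℚ) : K) := by
  unfold val ic
  push_cast
  rfl

theorem val_div {r n : ℕ} {e : Fin r × Fin 3 → ℕ}
    (c : (k : Fin r × Fin 3) → Mon n (e k + 1) → ℤ) (q : Fin (n + 1) → ℤ) (s : ℝ)
    (k : Fin r × Fin 3) :
    val (ic c ℝ k) (fun i => (q i : ℝ) / s) =
      val (ic c ℝ k) (fun i => ((q i : ℤ) : ℝ)) / s ^ (e k + 1) := by
  unfold val
  rw [Finset.sum_div]
  refine Finset.sum_congr rfl fun m _ => ?_
  have h1 : ∑ i, m.1 i = e k + 1 := (Finset.mem_piAntidiag.1 m.2).1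
  have h0 : s ^ (e k + 1) = ∏ i, s ^ (m.1 i) := by rw [Finset.prod_pow_eq_pow_sum, h1]
  have h2 : ∏ i, ((q i : ℝ) / s) ^ (m.1 i) = (∏ i, ((q i : ℤ) : ℝ) ^ (m.1 i)) / s ^ (e k + 1) := by
    rw [h0, ← Finset.prod_div_distrib]
    exact Finset.prod_congr rfl fun i _ => div_pow _ _ _
  rw [h2, mul_div_assoc]

theorem near_tri {K : Type} [NormedField K] {d : ℕ} {Z z'' z : Fin d → K} {ε : ℝ} (hε : 0 < ε)
    (hε2 : ε ≤ 1 / 2) (hZ : ‖Z‖ = 1) (h1 : ∀ l, ‖z'' l - Z l‖ < ε) (h2 : Near (ε / 4) z'' z) :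
    Near (2 * ε) Z z := by
  obtain ⟨l, hl, h3⟩ := h2
  refine ⟨l, hl, fun j => ?_⟩
  have h4 : ‖z''‖ ≤ 3 / 2 := by
    have h5 : ‖z'' - Z‖ ≤ ε := (pi_norm_le_iff_of_nonneg hε.le).2 fun i => (h1 i).le
    have h6 : z'' = (z'' - Z) + Z := by abel
    calc ‖z''‖ = ‖(z'' - Z) + Z‖ := by rw [← h6]
      _ ≤ ‖z'' - Z‖ + ‖Z‖ := norm_add_le _ _
      _ ≤ 3 / 2 := by rw [hZ]; linarith
  have h5 : Z j - l * z j = (z'' j - l * z j) - (z'' j - Z j) := by ring
  rw [hZ, h5]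
  calc ‖(z'' j - l * z j) - (z'' j - Z j)‖ ≤ ‖z'' j - l * z j‖ + ‖z'' j - Z j‖ := norm_sub_le _ _
    _ ≤ ‖z''‖ * (ε / 4) + ε := add_le_add (h3 j) (h1 j).le
    _ ≤ 3 / 2 * (ε / 4) + ε := by
        have := mul_le_mul_of_nonneg_right h4 (by positivity : (0 : ℝ) ≤ ε / 4)
        linarith
    _ ≤ 1 * (2 * ε) := by linarith

theorem gluw_ (hcwa : S_CWA) : S_GLUW := by
  intro n r e he c m ε hε hε2 q s hs hq hz X Z XR ZR hN hXR hZR hP hR hRz
  classical
  obtain ⟨z0, hz0⟩ := hz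
  obtain ⟨zR, hzR1, hzR2⟩ := hRz
  choose zp hzp using fun (p : Nat.Primes) (hp : (p : ℕ) ≤ m) => (hP p hp).2
  let S : Finset Nat.Primes := Finset.subtype (fun p => p.Prime) (Finset.range (m + 1))
  have hS : ∀ p : Nat.Primes, p ∈ S ↔ (p : ℕ) ≤ m := by
    intro p
    exact Finset.mem_subtype.trans (Finset.mem_range.trans Nat.lt_succ_iff)
  have key : ∀ i : Fin r, ∃ z : Fin 3 → ℚ,
      OnC (val (ic c ℚ (i, 0)) (fun i => (q i : ℚ))) (val (ic c ℚ (i, 1)) (fun i => (q i : ℚ)))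
        (val (ic c ℚ (i, 2)) (fun i => (q i : ℚ))) z ∧
      (∀ p : Nat.Primes, ∀ hp : (p : ℕ) ≤ m,
        Near (ε / 4) (zp p hp i) (fun j => (z j : ℚ_[(p : ℕ)]))) ∧
      Near (ε / 4) (zR i) (fun j => (z j : ℝ)) := by
    intro i
    let Z' : (p : Nat.Primes) → Fin 3 → ℚ_[(p : ℕ)] :=
      fun p => if hp : (p : ℕ) ≤ m then zp p hp i else 0
    have hZ' : ∀ (p : Nat.Primes) (hp : (p : ℕ) ≤ m), Z' p = zp p hp i := by
      intro p hp
      show (if hp : (p : ℕ) ≤ m then zp p hp i else 0) = _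
      rw [dif_pos hp]
    have hsol : Sol (val (ic c ℚ (i, 0)) (fun i => (q i : ℚ)))
        (val (ic c ℚ (i, 1)) (fun i => (q i : ℚ))) (val (ic c ℚ (i, 2)) (fun i => (q i : ℚ))) := by
      obtain ⟨h1, h2⟩ := hz0 i
      refine ⟨z0 i 0, z0 i 1, z0 i 2, ?_, h2⟩
      by_contra hcon
      push Not at hcon
      apply h1
      funext l
      fin_cases l
      · exact hcon.1
      · exact hcon.2.1
      · exact hcon.2.2
    obtain ⟨z, h1, h2, h3⟩ := hcwa _ _ _ (hq (i, 0)) (hq (i, 1)) (hq (i, 2)) hsol S Z' (zR i)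
      (by
        intro p hp
        have hp' := (hS p).1 hp
        obtain ⟨h1, h2⟩ := (hzp p hp').2 i
        rw [hZ' p hp']
        refine ⟨h1, ?_⟩
        rw [← val_cast, ← val_cast, ← val_cast]
        exact h2)
      (by
        obtain ⟨h1, h2⟩ := hzR2 i
        refine ⟨h1, ?_⟩
        have g1 : s ^ (e (i, 1) + 1) = s ^ (e (i, 0) + 1) := by rw [he i 1 0]
        have g2 : s ^ (e (i, 2) + 1) = s ^ (e (i, 0) + 1) := by rw [he i 2 0]
        simp only [val_div] at h2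
        rw [g1, g2] at h2
        rw [← val_cast, ← val_cast, ← val_cast]
        have hs' : s ^ (e (i, 0) + 1) ≠ 0 := (pow_pos hs _).ne'
        field_simp at h2
        linarith)
      (ε / 4) (by positivity)
    refine ⟨z, h1, ?_, h3⟩
    intro p hp
    have := h2 p ((hS p).2 hp)
    rw [hZ' p hp] at this
    exact this
  choose z hz1 hz2 hz3 using key
  refine ⟨fun i => (q i : ℚ), z, ?_, ?_, ?_, ?_, ?_⟩
  · intro h0
    have h1 : ‖XR‖ < 1 := by
      rw [pi_norm_lt_iff one_pos]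
      intro i
      have h2 := hR i
      have h3 : (q i : ℚ) = 0 := congrFun h0 i
      have h4 : (q i : ℝ) = 0 := by exact_mod_cast h3
      rw [h4, zero_div, zero_sub, abs_neg] at h2
      rw [Real.norm_eq_abs]
      linarith
    linarith
  · intro i
    exact hz1 i
  · intro p hp
    refine ⟨⟨1, one_ne_zero, fun j => ?_⟩, fun i => ?_⟩
    · show ‖X p j - 1 * (((q j : ℤ) : ℚ) : ℚ_[(p : ℕ)])‖ ≤ ‖X p‖ * (2 * ε)
      rw [(hN p hp).1, one_mul, one_mul, Rat.cast_intCast, norm_sub_rev]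
      have := (hP p hp).1 j
      linarith
    · exact near_tri hε hε2 ((hN p hp).2 i) ((hzp p hp).1 i) (hz2 i p hp)
  · refine ⟨1 / s, (by positivity), fun j => ?_⟩
    show ‖XR j - 1 / s * (((q j : ℤ) : ℚ) : ℝ)‖ ≤ ‖XR‖ * (2 * ε)
    rw [hXR, one_mul, Rat.cast_intCast, Real.norm_eq_abs, abs_sub_comm]
    have h1 := hR j
    have h2 : 1 / s * (q j : ℝ) = (q j : ℝ) / s := by ring
    rw [h2]
    linarith
  · intro i
    exact near_tri hε hε2 (hZR i) (fun l => by rw [Real.norm_eq_abs]; exact hzR1 i l) (hz3 i)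

end Pool.Agent.N982.PW
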